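import Pool.Agent.Q17.Affine.Main

/-!
# Order versus largest cycle length of affine maps on finite nilpotent groups

The order of an affine map `x ↦ t * α x` of a finite nilpotent group is the length of one of its
cycles, so it equals the largest cycle length.
-/

namespace Pool.Agent.Results.MP_27f3b7_al

/-- A permutation `A` of the group `G` is an affine map: `A x = t * α x` for some automorphism `α`
of `G` and some `t` in `G`. -/
def IsAffineMap {G : Type*} [Group G] (A : Equiv.Perm G) : Prop :=
  ∃ (α : MulAut G) (t : G), ∀ x, A x = t * α x

/-- The largest length of a cycle of the permutation `A` (the length of the cycle through `x` is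
the minimal period of `x` under `A`). -/
noncomputable def largestCycleLength {X : Type*} (A : Equiv.Perm X) : ℕ :=
  sSup (Set.range fun x => Function.minimalPeriod A x)

/-- Let `A` be an affine map of a finite nilpotent group `G`.  Some point of `G` lies on a cycle of
`A` of length the order of `A`; the order of `A` equals its largest cycle length. -/
theorem AffineMapsOfNilpotentGroups.result (G : Type*) [Group G] [Finite G]
    [Group.IsNilpotent G] (A : Equiv.Perm G) (hA : IsAffineMap A) :
    (∃ x, Function.minimalPeriod A x = orderOf A) ∧ largestCycleLength A = orderOf A := by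
  obtain ⟨x, hx⟩ := Q17.Affine.affine_nilpotent A hA
  refine ⟨⟨x, hx⟩, ?_⟩
  have hle : ∀ m ∈ Set.range (fun x => Function.minimalPeriod A x), m ≤ orderOf A := by
    rintro m ⟨y, rfl⟩
    apply Nat.le_of_dvd (orderOf_pos A)
    apply Function.IsPeriodicPt.minimalPeriod_dvd
    change (A : G → G)^[orderOf A] y = y
    rw [Equiv.Perm.iterate_eq_pow, pow_orderOf_eq_one]
    rfl
  apply le_antisymm
  · exact csSup_le ⟨_, x, rfl⟩ hle
  · exact le_csSup ⟨_, hle⟩ ⟨x, hx⟩

end Pool.Agent.Results.MP_27f3b7_al
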